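import Pool.Graph.R_seed8.Results.MP_5317dd_nt.ManyFailures
import Pool.Graph.R_seed8.Results.MP_fd8838_nt.EveryClassPositive
import Pool.Graph.R_seed8.R623.LN.W

/-!
Wiggin's conjecture fails for a positive proportion of the starting values.

* For 29 values of `D` (the least of them is `13`) the set of the `n` which do not descend below `D`
  has a natural density `δ` with `0 < δ < 1`.
* For every `D ≥ 2` the set of the `n` which do not descend below `D` has a natural density; it is
  zero only if every `n ≥ 1` descends. So for each single `D` the conjecture holds for all starting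
  values if it holds for almost all of them.
* For every `D ≥ 2` every nonempty set of positive integers which is invariant under `F_D` and under
  preimages has a positive natural density.
-/

set_option autoImplicit false

namespace Pool.Agent.Results.MP_5317dd_nt.PositiveProportion

open Filter Topology

/-- Wiggin's map `F_D`. -/
def F (D x : ℕ) : ℕ :=
  if x % D = 0 then x / D
  else if x % D = D - 1 then (D + 1) * x + 1
  else (D + 1) * x - x % D

/-- `n` descends below `D` under iteration of `F_D`. -/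
def Desc (D n : ℕ) : Prop := ∃ k : ℕ, (F D)^[k] n < D

/-- `S` has the natural density `δ` among the positive integers: `#{1 ≤ n ≤ N : n ∈ S} / N → δ`. -/
def HasDensity (S : Set ℕ) (δ : ℝ) : Prop :=
  Tendsto (fun N : ℕ => (({n : ℕ | 1 ≤ n ∧ n ≤ N ∧ n ∈ S}.ncard : ℕ) : ℝ) / N) atTop (𝓝 δ)

/-- the offsets -/
def r (D : ℕ) : ℤ → ℤ := fun j => if j = (D : ℤ) - 1 then -1 else j

open Pool.Agent.Results.MP_fd8838_nt.EveryClassPositive (T)

lemma F_mul {D q : ℕ} (hD : 0 < D) : F D (D * q) = q := by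
  unfold F
  rw [if_pos (Nat.mul_mod_right D q), Nat.mul_div_cancel_left _ hD]

/-- one step of `T` is one or two steps of `F_D` -/
lemma T_eq {D : ℕ} (hD : 2 ≤ D) {n : ℕ} (hn : 1 ≤ n) :
    ∃ i : ℕ, T D (D + 1) (r D) (n : ℤ) = (((F D)^[i] n : ℕ) : ℤ) ∧ 1 ≤ (F D)^[i] n := by
  have hD0 : (D : ℤ) ≠ 0 := by omega
  obtain ⟨q, j, hj, rfl⟩ : ∃ q j, j < D ∧ n = D * q + j :=
    ⟨n / D, n % D, Nat.mod_lt _ (by omega), (Nat.div_add_mod n D).symm⟩
  have hm : (D * q + j) % D = j := by rw [Nat.mul_add_mod, Nat.mod_eq_of_lt hj]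
  have hmz : (((D * q + j : ℕ) : ℤ)) % (D : ℤ) = j := by
    rw [← Int.natCast_mod, hm]
  rcases Nat.eq_zero_or_pos j with h0 | h0
  · subst h0
    refine ⟨1, ?_, ?_⟩
    · unfold T
      rw [if_pos (Int.dvd_of_emod_eq_zero (by rw [hmz]; rfl)), Function.iterate_one, Nat.add_zero,
        F_mul (by omega)]
      push_cast
      exact Int.mul_ediv_cancel_left _ hD0
    · rw [Function.iterate_one, Nat.add_zero, F_mul (by omega)]
      rcases Nat.eq_zero_or_pos q with h | h
      · subst h; simp at hn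
      · exact h
  · have hnd : ¬ (D : ℤ) ∣ ((D * q + j : ℕ) : ℤ) := by
      intro h
      have := Int.emod_eq_zero_of_dvd h
      rw [hmz] at this
      omega
    by_cases h1 : j = D - 1
    · have hF : F D (D * q + j) = D * (D * (q + 1) + q) := by
        unfold F
        rw [hm, if_neg (by omega), if_pos h1, h1]
        obtain ⟨d, rfl⟩ : ∃ d, D = d + 1 := ⟨D - 1, by omega⟩
        simp only [Nat.add_sub_cancel]
        ring
      have hF2 : (F D)^[2] (D * q + j) = D * (q + 1) + q := by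
        rw [Function.iterate_succ_apply, Function.iterate_one, hF, F_mul (by omega)]
      refine ⟨2, ?_, ?_⟩
      · rw [hF2]
        unfold T r
        have hjz : (j : ℤ) = D - 1 := by omega
        rw [if_neg hnd, hmz, if_pos hjz]
        push_cast
        rw [hjz]
        have e : ((D : ℤ) + 1) * (D * q + (D - 1)) - -1 = D * (D * (q + 1) + q) := by ring
        rw [e, Int.mul_ediv_cancel_left _ hD0]
      · rw [hF2]
        have : 1 ≤ D * (q + 1) := Nat.mul_pos (by omega) (by omega)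
        omega
    · have hF : F D (D * q + j) = D * (D * q + j + q) := by
        unfold F
        rw [hm, if_neg (by omega), if_neg h1]
        have : (D + 1) * (D * q + j) = D * (D * q + j + q) + j := by ring
        omega
      have hF2 : (F D)^[2] (D * q + j) = D * q + j + q := by
        rw [Function.iterate_succ_apply, Function.iterate_one, hF, F_mul (by omega)]
      refine ⟨2, ?_, ?_⟩
      · rw [hF2]
        unfold T r
        rw [if_neg hnd, hmz, if_neg (by omega)]
        push_cast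
        have e : ((D : ℤ) + 1) * (D * q + j) - j = D * (D * q + j + q) := by ring
        rw [e, Int.mul_ediv_cancel_left _ hD0]
      · rw [hF2]
        omega

lemma T_nonpos {D : ℕ} (hD : 2 ≤ D) {x : ℤ} (hx : x ≤ 0) : T D (D + 1) (r D) x ≤ 0 := by
  have hD0 : (0 : ℤ) < D := by omega
  unfold T
  by_cases h : (D : ℤ) ∣ x
  · rw [if_pos h]
    exact Int.ediv_nonpos_of_nonpos_of_neg hx hD0
  · rw [if_neg h]
    have hx1 : x ≤ -1 := by
      rcases lt_or_eq_of_le hx with h1 | h1
      · omega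
      · exact absurd (h1 ▸ dvd_zero _) h
    have hr : -1 ≤ r D (x % D) := by
      have := Int.emod_nonneg x hD0.ne'
      unfold r
      split_ifs <;> omega
    apply Int.ediv_nonpos_of_nonpos_of_neg _ hD0
    push_cast
    nlinarith

/-- `D + 1 ≤ D ^ (D / (D - 1))` -/
lemma range {D : ℕ} (hD : 2 ≤ D) :
    ((D + 1 : ℕ) : ℝ) ≤ (D : ℝ) ^ ((D : ℝ) / ((D : ℝ) - 1)) := by
  obtain ⟨e, rfl⟩ : ∃ e, D = e + 1 := ⟨D - 1, by omega⟩
  have he : 1 ≤ e := by omega
  have h1 : (e + 2) ^ e < (e + 1) ^ (e + 1) := Pool.Agent.R623.LN.W.pow_lt e he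
  have h2 : ((e : ℝ) + 2) ^ e ≤ ((e : ℝ) + 1) ^ (e + 1) := by exact_mod_cast h1.le
  have he0 : (e : ℝ) ≠ 0 := by positivity
  have e1 : ((e + 1 : ℕ) : ℝ) / (((e + 1 : ℕ) : ℝ) - 1) = ((e + 1 : ℕ) : ℝ) * (1 / e) := by
    push_cast
    rw [add_sub_cancel_right, mul_one_div]
  rw [e1, Real.rpow_mul (by positivity), Real.rpow_natCast]
  have e2 : ((e + 1 + 1 : ℕ) : ℝ) = (((e : ℝ) + 2) ^ e) ^ (1 / (e : ℝ)) := by
    rw [← Real.rpow_natCast, ← Real.rpow_mul (by positivity), mul_one_div_cancel he0, Real.rpow_one]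
    push_cast
    ring
  rw [e2]
  apply Real.rpow_le_rpow (by positivity) _ (by positivity)
  push_cast
  exact h2

/-- every nonempty invariant set of positive integers has a positive natural density -/
theorem inv_dens {D : ℕ} (hD : 2 ≤ D) {S : Set ℕ} (hS : ∀ n, 1 ≤ n → (n ∈ S ↔ F D n ∈ S))
    (hne : ∃ n ∈ S, 1 ≤ n) : ∃ δ : ℝ, 0 < δ ∧ HasDensity S δ := by
  have hF1 : ∀ n, 1 ≤ n → 1 ≤ F D n := by
    intro n hn
    unfold F
    split_ifs with h1 h2
    · obtain ⟨q, rfl⟩ := Nat.dvd_of_mod_eq_zero h1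
      rw [Nat.mul_div_cancel_left _ (by omega)]
      rcases Nat.eq_zero_or_pos q with h | h
      · subst h; simp at hn
      · exact h
    · omega
    · have h3 : n % D ≤ n := Nat.mod_le _ _
      have h4 : 1 ≤ D * n := Nat.mul_pos (by omega) hn
      have h5 : (D + 1) * n = D * n + n := by ring
      omega
  have hFi : ∀ i n, 1 ≤ n → 1 ≤ (F D)^[i] n ∧ (n ∈ S ↔ (F D)^[i] n ∈ S) := by
    intro i
    induction i with
    | zero => intro n hn; exact ⟨hn, Iff.rfl⟩
    | succ i ih =>
      intro n hn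
      rw [Function.iterate_succ_apply]
      obtain ⟨h1, h2⟩ := ih (F D n) (hF1 n hn)
      exact ⟨h1, (hS n hn).trans h2⟩
  set S' : Set ℤ := {x : ℤ | 0 < x ∧ x.toNat ∈ S} with hS'
  have hinv : ∀ x : ℤ, x ∈ S' ↔ T D (D + 1) (r D) x ∈ S' := by
    intro x
    rcases le_or_gt x 0 with hx | hx
    · have h1 := T_nonpos hD hx
      constructor
      · rintro ⟨h, -⟩; omega
      · rintro ⟨h, -⟩; omega
    · obtain ⟨n, rfl⟩ : ∃ n : ℕ, x = n := ⟨x.toNat, by omega⟩
      have hn : 1 ≤ n := by omega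
      obtain ⟨i, hi, hi1⟩ := T_eq hD hn
      rw [hi]
      simp only [hS', Set.mem_ofPred_eq, Int.toNat_natCast]
      rw [← (hFi i n hn).2]
      constructor
      · rintro ⟨-, h⟩; exact ⟨by omega, h⟩
      · rintro ⟨-, h⟩; exact ⟨by omega, h⟩
  obtain ⟨n₀, hn₀, hn₁⟩ := hne
  have hmem : ∀ k, (T D (D + 1) (r D))^[k] (n₀ : ℤ) ∈ S' := by
    intro k
    induction k with
    | zero =>
      refine ⟨?_, ?_⟩
      · show (0 : ℤ) < (n₀ : ℤ)
        omega
      · show ((n₀ : ℤ)).toNat ∈ S
        rwa [Int.toNat_natCast]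
    | succ k ih => rw [Function.iterate_succ_apply']; exact (hinv _).1 ih
  have hco : Nat.Coprime (D + 1) D := by simp
  have hr : ∀ j : ℤ, 0 < j → j < (D : ℤ) → r D j ≡ ((D + 1 : ℕ) : ℤ) * j [ZMOD (D : ℤ)] := by
    intro j _ _
    unfold r
    apply Int.ModEq.symm
    rw [Int.modEq_iff_dvd]
    split_ifs with h
    · rw [h]
      refine ⟨-D, ?_⟩
      push_cast
      ring
    · refine ⟨-j, ?_⟩
      push_cast
      ring
  obtain ⟨δ, hδ, hdens⟩ := (Pool.Agent.Results.MP_fd8838_nt.EveryClassPositive.result D (D + 1) hD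
    (by omega) hco (range hD) (r D) hr).1 S' (by rintro ⟨h, -⟩; omega) hinv 1 (Or.inl rfl)
    ⟨(n₀ : ℤ), hmem 0, fun k₀ => ⟨k₀, le_rfl, by rw [one_mul]; exact (hmem k₀).1⟩⟩
  refine ⟨δ, hδ, ?_⟩
  unfold HasDensity
  refine hdens.congr fun N => ?_
  congr 2
  rw [← Set.ncard_image_of_injective {n : ℕ | 1 ≤ n ∧ n ≤ N ∧ n ∈ S}
    (f := fun n : ℕ => (n : ℤ)) Nat.cast_injective]
  congr 1
  ext x
  simp only [hS', Set.mem_ofPred_eq, Set.mem_image, one_mul]
  constructor
  · rintro ⟨⟨h1, h2⟩, h3, h4⟩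
    exact ⟨x.toNat, ⟨by omega, by omega, h2⟩, by omega⟩
  · rintro ⟨n, ⟨h1, h2, h3⟩, rfl⟩
    exact ⟨⟨by omega, by simpa using h3⟩, by omega, by omega⟩

lemma desc_step {D : ℕ} (hD : 2 ≤ D) {n : ℕ} (hn : 1 ≤ n) : Desc D n ↔ Desc D (F D n) := by
  constructor
  · rintro ⟨k, hk⟩
    rcases Nat.eq_zero_or_pos k with h | h
    · subst h
      have hlt : n < D := hk
      have hmod : n % D = n := Nat.mod_eq_of_lt hlt
      by_cases h1 : n = D - 1
      · have hF : F D n = D * D := by
          unfold F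
          rw [hmod, if_neg (by omega), if_pos h1, h1]
          obtain ⟨d, rfl⟩ : ∃ d, D = d + 1 := ⟨D - 1, by omega⟩
          simp only [Nat.add_sub_cancel]
          ring
        refine ⟨2, ?_⟩
        have h3 : F D (D * D) = D := F_mul (by omega)
        have h4 : F D D = 1 := by
          have := F_mul (D := D) (q := 1) (by omega)
          rwa [mul_one] at this
        rw [hF, Function.iterate_succ_apply, Function.iterate_one, h3, h4]
        omega
      · have hF : F D n = D * n := by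
          unfold F
          rw [hmod, if_neg (by omega), if_neg h1]
          have : (D + 1) * n = D * n + n := by ring
          omega
        refine ⟨1, ?_⟩
        rw [hF, Function.iterate_one, F_mul (by omega)]
        exact hlt
    · obtain ⟨j, rfl⟩ : ∃ j, k = j + 1 := ⟨k - 1, by omega⟩
      exact ⟨j, by rwa [Function.iterate_succ_apply] at hk⟩
  · rintro ⟨k, hk⟩
    exact ⟨k + 1, by rwa [Function.iterate_succ_apply]⟩

/-- the densities of the descending and of the other starting values -/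
theorem fail_dens {D : ℕ} (hD : 2 ≤ D) (hne : ∃ n, 1 ≤ n ∧ ¬ Desc D n) :
    ∃ δ : ℝ, 0 < δ ∧ δ < 1 ∧ HasDensity {n | ¬ Desc D n} δ := by
  obtain ⟨n, hn, hn'⟩ := hne
  obtain ⟨δ, hδ, h1⟩ := inv_dens hD (S := {n | ¬ Desc D n})
    (fun m hm => not_congr (desc_step hD hm)) ⟨n, hn', hn⟩
  obtain ⟨δ', hδ', h2⟩ := inv_dens hD (S := {n | Desc D n})
    (fun m hm => desc_step hD hm) ⟨1, ⟨0, by
      show (1 : ℕ) < D
      omega⟩, le_rfl⟩
  refine ⟨δ, hδ, ?_, h1⟩
  have h3 : Tendsto (fun N : ℕ => ((N : ℕ) : ℝ) / N) atTop (𝓝 (δ + δ')) := by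
    refine (h1.add h2).congr fun N => ?_
    rw [← add_div]
    congr 1
    have hfin : ∀ P : ℕ → Prop, {n : ℕ | 1 ≤ n ∧ n ≤ N ∧ P n}.Finite := fun P =>
      (Set.finite_Icc 1 N).subset fun m hm => ⟨hm.1, hm.2.1⟩
    have hdisj : Disjoint {n : ℕ | 1 ≤ n ∧ n ≤ N ∧ n ∈ {n | ¬ Desc D n}}
        {n : ℕ | 1 ≤ n ∧ n ≤ N ∧ n ∈ {n | Desc D n}} := by
      rw [Set.disjoint_left]
      rintro m ⟨-, -, h⟩ ⟨-, -, h'⟩
      exact h h'
    have hun := Set.ncard_union_eq hdisj (hfin _) (hfin _)
    have hset : {n : ℕ | 1 ≤ n ∧ n ≤ N ∧ n ∈ {n | ¬ Desc D n}} ∪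
        {n : ℕ | 1 ≤ n ∧ n ≤ N ∧ n ∈ {n | Desc D n}} = ((Finset.Icc 1 N : Finset ℕ) : Set ℕ) := by
      ext m
      simp only [Set.mem_union, Set.mem_ofPred_eq, Finset.coe_Icc, Set.mem_Icc]
      by_cases h : Desc D m
      · simp only [h, not_true, and_false, false_or, and_true]
      · simp only [h, not_false_eq_true, and_true, and_false, or_false]
    rw [hset, Set.ncard_coe_finset, Nat.card_Icc] at hun
    have h4 : N + 1 - 1 = N := by omega
    rw [h4] at hun
    exact_mod_cast hun.symm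
  have h4 : Tendsto (fun N : ℕ => ((N : ℕ) : ℝ) / N) atTop (𝓝 1) := by
    refine tendsto_const_nhds.congr' ?_
    filter_upwards [eventually_ge_atTop 1] with N hN
    rw [div_self]
    positivity
  have := tendsto_nhds_unique h3 h4
  linarith

/-- **Wiggin's conjecture fails for a positive proportion of the starting values.**
(1) For 29 values of `D`, the least of which is `13`, the set of the `n ≥ 1` which do not descend
below `D` under iteration of `F_D` has a natural density `δ`, and `0 < δ < 1`.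
(2) For every `D ≥ 2` this set has a natural density `δ < 1`, and `δ = 0` only if every `n ≥ 1`
descends below `D`.
(3) For every `D ≥ 2` every set of positive integers which contains `n` if and only if it contains
`F_D n`, and is not empty, has a positive natural density. -/
theorem result :
    (∀ D ∈ [13, 14, 15, 47, 55, 58, 62, 82, 83, 95, 104, 105, 121, 132, 133, 139, 143, 168, 198,
        216, 226, 307, 308, 346, 390, 700, 1023, 1235, 1277],
      ∃ δ : ℝ, 0 < δ ∧ δ < 1 ∧ HasDensity {n | ¬ Desc D n} δ) ∧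
    (∀ D : ℕ, 2 ≤ D → ∃ δ : ℝ, 0 ≤ δ ∧ δ < 1 ∧ HasDensity {n | ¬ Desc D n} δ ∧
      (δ = 0 ↔ ∀ n : ℕ, 1 ≤ n → Desc D n)) ∧
    (∀ D : ℕ, 2 ≤ D → ∀ S : Set ℕ, (∀ n : ℕ, 1 ≤ n → (n ∈ S ↔ F D n ∈ S)) →
      (∃ n ∈ S, 1 ≤ n) → ∃ δ : ℝ, 0 < δ ∧ HasDensity S δ) := by
  refine ⟨?_, ?_, fun D hD S hS hne => inv_dens hD hS hne⟩
  · intro D hD
    have hD2 : 2 ≤ D := by
      fin_cases hD <;> norm_num
    obtain ⟨n, L, -, -, hn⟩ :=
      Pool.Agent.Results.MP_5317dd_nt.ManyFailures.result.1 D hD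
    refine fail_dens hD2 ⟨n, by have := hn 0; simp only [Function.iterate_zero, id_eq] at this; omega, ?_⟩
    rintro ⟨k, hk⟩
    exact absurd hk (not_lt.2 (hn k))
  · intro D hD
    by_cases hne : ∃ n, 1 ≤ n ∧ ¬ Desc D n
    · obtain ⟨δ, h0, h1, h2⟩ := fail_dens hD hne
      refine ⟨δ, h0.le, h1, h2, ?_⟩
      constructor
      · intro h; exact absurd h h0.ne'
      · intro h
        obtain ⟨n, hn, hn'⟩ := hne
        exact absurd (h n hn) hn'
    · push Not at hne
      refine ⟨0, le_rfl, one_pos, ?_, fun _ => hne, fun _ => rfl⟩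
      have hset : ∀ N : ℕ, {n : ℕ | 1 ≤ n ∧ n ≤ N ∧ n ∈ {n | ¬ Desc D n}} = ∅ := by
        intro N
        ext m
        simp only [Set.mem_ofPred_eq, Set.mem_empty_iff_false, iff_false]
        rintro ⟨h1, -, h2⟩
        exact h2 (hne m h1)
      unfold HasDensity
      simp only [hset, Set.ncard_empty, Nat.cast_zero, zero_div]
      exact tendsto_const_nhds

end Pool.Agent.Results.MP_5317dd_nt.PositiveProportion
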